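import Pool.Agent.W528.HG.Stm
import Pool.Agent.W125.HD.PE

/-!
# The point count with Artin-Schreier equations
-/

set_option autoImplicit false

namespace Pool.Agent.W410.HG.PS

open Finset Pool.Agent.W528.HA Pool.Agent.W528.HC Pool.Agent.W528.HG Pool.Agent.W125.HC.PC

theorem exists_trace (L : Type) [Field L] [Fintype L] (c : ℕ) [Fact c.Prime] [CharP L c] :
    ∃ T : L →+ ZMod c, Function.Surjective T ∧ (∀ y, absTr L c y = ((T y).val : L)) ∧
      ∀ w, T (w ^ c) = T w := by
  classical
  let _ : Algebra (ZMod c) L := ZMod.algebra L c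
  have hfr : Module.finrank (ZMod c) L = Nat.log c (Fintype.card L) := by
    have h := Module.card_eq_pow_finrank (K := ZMod c) (V := L)
    rw [h, ZMod.card, Nat.log_pow (Fact.out : c.Prime).one_lt]
  refine ⟨(Algebra.trace (ZMod c) L).toAddMonoidHom, ?_, ?_, ?_⟩
  · exact Algebra.trace_surjective (ZMod c) L
  · intro y
    have h := FiniteField.algebraMap_trace_eq_sum_pow (ZMod c) L y
    rw [hfr, Nat.card_zmod] at h
    unfold absTr
    rw [← h]
    have h2 : ((Algebra.trace (ZMod c) L y).val : L) =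
        algebraMap (ZMod c) L (Algebra.trace (ZMod c) L y) := by
      conv_rhs => rw [← ZMod.natCast_zmod_val (Algebra.trace (ZMod c) L y)]
      rw [map_natCast]
    exact h2.symm
  · intro w
    have h := Algebra.trace_eq_of_algEquiv (FiniteField.frobeniusAlgEquivOfAlgebraic (ZMod c) L) w
    rw [FiniteField.coe_frobeniusAlgEquivOfAlgebraic] at h
    rw [ZMod.card] at h
    exact h

theorem as_card (L : Type) [Field L] [Fintype L] [DecidableEq L] (c : ℕ) [Fact c.Prime] [CharP L c]
    (T : L →+ ZMod c) (hT : Function.Surjective T) (hF : ∀ w, T (w ^ c) = T w) (a : L) :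
    (univ.filter (fun w : L => w ^ c - w = a)).card = if T a = 0 then c else 0 := by
  classical
  have hc : c.Prime := Fact.out
  obtain ⟨φ, hφ⟩ : ∃ φ : L →+ L, ∀ w, φ w = w ^ c - w :=
    ⟨(frobenius L c).toAddMonoidHom - AddMonoidHom.id L, fun w => by simp [frobenius_def]⟩
  -- the kernel
  have hker : (univ.filter (fun w : L => φ w = 0)).card ≤ c := by
    have h1 : (univ.filter (fun w : L => φ w = 0)) ⊆
        ((Polynomial.X ^ c - Polynomial.X : Polynomial L).roots.toFinset) := by
      intro w hw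
      rw [mem_filter] at hw
      rw [Multiset.mem_toFinset, Polynomial.mem_roots (FiniteField.X_pow_card_sub_X_ne_zero L hc.one_lt)]
      have := hw.2
      rw [hφ] at this
      simpa [Polynomial.IsRoot] using this
    calc _ ≤ _ := card_le_card h1
      _ ≤ _ := Multiset.toFinset_card_le _
      _ ≤ _ := Polynomial.card_roots' _
      _ = c := FiniteField.X_pow_card_sub_X_natDegree_eq L hc.one_lt
  have hrT : ∀ w, T (φ w) = 0 := by
    intro w
    rw [hφ, map_sub, hF, sub_self]
  -- the fibres of T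
  have hfT : ∀ s : ZMod c, (univ.filter (fun w : L => T w = s)).card =
      (univ.filter (fun w : L => T w = 0)).card := by
    intro s
    exact AddMonoidHom.card_fiber_eq_of_mem_range T (hT s) (hT 0)
  have hcT : Fintype.card L = c * (univ.filter (fun w : L => T w = 0)).card := by
    have h := card_eq_sum_card_fiberwise (s := (univ : Finset L)) (t := (univ : Finset (ZMod c)))
      (f := T) (fun _ _ => by simp)
    rw [card_univ] at h
    rw [h, sum_congr rfl fun s _ => hfT s, sum_const, card_univ, ZMod.card, smul_eq_mul]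
  have hfφ : ∀ s ∈ univ.image φ, (univ.filter (fun w : L => φ w = s)).card =
      (univ.filter (fun w : L => φ w = 0)).card := by
    intro s hs
    rw [mem_image] at hs
    obtain ⟨w, _, hw⟩ := hs
    exact AddMonoidHom.card_fiber_eq_of_mem_range φ ⟨w, hw⟩ ⟨0, map_zero φ⟩
  have hcφ : Fintype.card L = (univ.image φ).card * (univ.filter (fun w : L => φ w = 0)).card := by
    have h := card_eq_sum_card_fiberwise (s := (univ : Finset L)) (t := (univ.image φ))
      (f := φ) (fun w _ => by simp)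
    rw [card_univ] at h
    rw [h, sum_congr rfl fun s hs => hfφ s hs, sum_const, smul_eq_mul]
  have hsub : univ.image φ ⊆ univ.filter (fun w : L => T w = 0) := by
    intro s hs
    rw [mem_image] at hs
    obtain ⟨w, _, rfl⟩ := hs
    rw [mem_filter]
    exact ⟨mem_univ _, hrT w⟩
  have hle := card_le_card hsub
  have hpos : 0 < (univ.image φ).card := card_pos.2 ⟨φ 0, mem_image_of_mem _ (mem_univ _)⟩
  have hTpos : 0 < (univ.filter (fun w : L => T w = 0)).card := lt_of_lt_of_le hpos hle
  have hkc : (univ.filter (fun w : L => φ w = 0)).card = c := by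
    apply le_antisymm hker
    have h2 : c * (univ.filter (fun w : L => T w = 0)).card ≤
        (univ.filter (fun w : L => φ w = 0)).card * (univ.filter (fun w : L => T w = 0)).card := by
      rw [← hcT, hcφ, mul_comm]
      exact Nat.mul_le_mul_left _ hle
    exact Nat.le_of_mul_le_mul_right h2 hTpos
  have him : univ.image φ = univ.filter (fun w : L => T w = 0) := by
    apply eq_of_subset_of_card_le hsub
    rw [hcT, hkc, mul_comm] at hcφ
    exact (Nat.eq_of_mul_eq_mul_right hc.pos hcφ).le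
  have hgoal : (univ.filter (fun w : L => w ^ c - w = a)) = (univ.filter (fun w : L => φ w = a)) :=
    filter_congr fun w _ => by rw [hφ]
  rw [hgoal]
  split_ifs with h
  · rw [← hkc]
    apply hfφ
    rw [him, mem_filter]
    exact ⟨mem_univ _, h⟩
  · rw [card_eq_zero, filter_eq_empty_iff]
    intro w _ hw
    exact h (hw ▸ hrT w)

theorem av_eq (L : Type) [Field L] [Fintype L] (R : Type) [CommRing R] (c : ℕ) [Fact c.Prime]
    [CharP L c] (ν : R) (T : L →+ ZMod c) (hT : ∀ y, absTr L c y = ((T y).val : L)) (y : L) :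
    av L R c ν y = ν ^ (T y).val := by
  classical
  unfold av
  have hlt : (T y).val < c := ZMod.val_lt (T y)
  rw [sum_eq_single_of_mem (T y).val (mem_range.2 hlt)]
  · rw [if_pos (hT y)]
  · intro i hi hne
    rw [if_neg]
    rw [hT y]
    intro h
    have h2 := (CharP.natCast_eq_natCast L c).1 h
    have h3 := Nat.ModEq.eq_of_lt_of_lt h2 hlt (mem_range.1 hi)
    exact hne h3.symm

theorem addChar_sum {A E ι : Type} [AddCommMonoid A] [CommMonoid E] (χ : AddChar A E)
    (s : Finset ι) (f : ι → A) : χ (∑ i ∈ s, f i) = ∏ i ∈ s, χ (f i) := by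
  classical
  induction s using Finset.induction_on with
  | empty => simp
  | insert i s hi ih => rw [sum_insert hi, prod_insert hi, AddChar.map_add_eq_mul, ih]

theorem as_sum (L : Type) [Field L] [Fintype L] [DecidableEq L] (E : Type) [Field E] (c : ℕ)
    [Fact c.Prime] [CharP L c] (ν : E) (hν : IsPrimitiveRoot ν c) (h : ℕ) (b : Fin h → L) :
    ∑ lam : Fin h → Fin c, av L E c ν (∑ l, ((lam l : ℕ) : L) * b l) =
      ∏ l, ((univ.filter (fun w : L => w ^ c - w = b l)).card : E) := by
  classical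
  have hc : c.Prime := Fact.out
  obtain ⟨T, hT1, hT2, hT3⟩ := exists_trace L c
  have hνc : ν ^ c = 1 := hν.pow_eq_one
  obtain ⟨χ, hχ⟩ : ∃ χ : AddChar (ZMod c) E, ∀ s, χ s = ν ^ s.val :=
    ⟨AddChar.zmodChar c hνc, fun s => AddChar.zmodChar_apply hνc s⟩
  have h1 : ∀ lam : Fin h → Fin c, av L E c ν (∑ l, ((lam l : ℕ) : L) * b l) =
      ∏ l, χ (((lam l : ℕ) : ZMod c) * T (b l)) := by
    intro lam
    rw [av_eq L E c ν T hT2, ← hχ, map_sum, addChar_sum]
    refine prod_congr rfl fun l _ => ?_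
    rw [← nsmul_eq_mul, map_nsmul, nsmul_eq_mul]
  have h2 : ∀ l, ((univ.filter (fun w : L => w ^ c - w = b l)).card : E) =
      ∑ k : Fin c, χ (((k : ℕ) : ZMod c) * T (b l)) := by
    intro l
    rw [as_card L c T hT1 hT3]
    have h3 : ∀ k : Fin c, χ (((k : ℕ) : ZMod c) * T (b l)) = (ν ^ (T (b l)).val) ^ (k : ℕ) := by
      intro k
      rw [← nsmul_eq_mul, AddChar.map_nsmul_eq_pow, hχ]
    rw [sum_congr rfl fun k _ => h3 k, Fin.sum_univ_eq_sum_range (fun k => (ν ^ (T (b l)).val) ^ k)]
    split_ifs with h4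
    · rw [h4]
      simp
    · have h5 : IsPrimitiveRoot (ν ^ (T (b l)).val) c := by
        apply hν.pow_of_coprime
        rw [Nat.coprime_comm, Nat.Prime.coprime_iff_not_dvd hc]
        intro hd
        have h6 : (T (b l)).val < c := ZMod.val_lt _
        have h7 : (T (b l)).val = 0 := Nat.eq_zero_of_dvd_of_lt hd h6
        exact h4 ((ZMod.val_eq_zero _).1 h7)
      rw [h5.geom_sum_eq_zero hc.one_lt]
      simp
  rw [sum_congr rfl fun lam _ => h1 lam, prod_congr rfl fun l _ => h2 l, prod_univ_sum,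
    Fintype.piFinset_univ]


/-- The number of solutions of the Artin-Schreier equations. -/
theorem card_as (L : Type) [Field L] [Fintype L] [DecidableEq L] (E : Type) [Field E] (c : ℕ)
    (h : ℕ) (b : Fin h → L) :
    (∑ w : Fin h → L, if ∀ l, w l ^ c - w l = b l then (1 : E) else 0) =
      ∏ l, ((univ.filter (fun w : L => w ^ c - w = b l)).card : E) := by
  classical
  have h1 : (univ.filter (fun w : Fin h → L => ∀ l, w l ^ c - w l = b l)) =
      Fintype.piFinset (fun l => univ.filter (fun w : L => w ^ c - w = b l)) := by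
    ext w
    simp [Fintype.mem_piFinset]
  rw [← sum_filter, sum_const, h1, Fintype.card_piFinset, nsmul_eq_mul, mul_one, Nat.cast_prod]

theorem base_eq (L : Type) [Field L] [Fintype L] [DecidableEq L] (E : Type) [Field E] (r c : ℕ)
    (h : ℕ) (g : Fin h → Polynomial L) :
    ((asBase L r c g : ℕ) : E) =
      ∑ u : L, ∏ l, ((univ.filter (fun w : L => w ^ c - w = (g l).eval (u ^ r))).card : E) := by
  classical
  unfold asBase
  have h1 : {v : L × (Fin h → L) | ∀ l, v.2 l ^ c - v.2 l = (g l).eval (v.1 ^ r)} =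
      ((univ.filter (fun v : L × (Fin h → L) =>
        ∀ l, v.2 l ^ c - v.2 l = (g l).eval (v.1 ^ r)) : Finset (L × (Fin h → L))) :
        Set (L × (Fin h → L))) := by
    ext y; simp
  rw [h1, Set.ncard_coe_finset, card_filter, Fintype.sum_prod_type]
  push_cast
  exact sum_congr rfl fun u _ => card_as L E c h (fun l => (g l).eval (u ^ r))

theorem points_eq (L : Type) [Field L] [Fintype L] [DecidableEq L] (E : Type) [Field E]
    (p r c : ℕ) (m h : ℕ) (f : Fin m → Polynomial L) (a : Fin m → ℕ) (g : Fin h → Polynomial L) :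
    ((asPoints L p r c f a g : ℕ) : E) =
      ∑ x : L, ∑ u : L,
        ((Set.ncard {y : L | y ^ p = ∏ i, (x - (f i).eval (u ^ r)) ^ a i} : ℕ) : E) *
        ∏ l, ((univ.filter (fun w : L => w ^ c - w = (g l).eval (u ^ r))).card : E) := by
  classical
  unfold asPoints
  have h1 : {v : (L × L × L) × (Fin h → L) |
      v.1.2.2 ^ p = ∏ i, (v.1.1 - (f i).eval (v.1.2.1 ^ r)) ^ a i ∧
      ∀ l, v.2 l ^ c - v.2 l = (g l).eval (v.1.2.1 ^ r)} =
      ((univ.filter (fun v : (L × L × L) × (Fin h → L) =>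
        v.1.2.2 ^ p = ∏ i, (v.1.1 - (f i).eval (v.1.2.1 ^ r)) ^ a i ∧
        ∀ l, v.2 l ^ c - v.2 l = (g l).eval (v.1.2.1 ^ r)) :
        Finset ((L × L × L) × (Fin h → L))) : Set ((L × L × L) × (Fin h → L))) := by
    ext y; simp
  rw [h1, Set.ncard_coe_finset, card_filter, Fintype.sum_prod_type, Fintype.sum_prod_type]
  push_cast
  refine sum_congr rfl fun x _ => ?_
  rw [Fintype.sum_prod_type]
  refine sum_congr rfl fun u _ => ?_
  rw [ncard_eq, sum_mul]
  refine sum_congr rfl fun y _ => ?_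
  rw [← card_as L E c h (fun l => (g l).eval (u ^ r)), mul_sum]
  refine sum_congr rfl fun w _ => ?_
  by_cases hy : y ^ p = ∏ i, (x - (f i).eval (u ^ r)) ^ a i
  · by_cases hw : ∀ l, w l ^ c - w l = (g l).eval (u ^ r)
    · rw [if_pos ⟨hy, hw⟩, if_pos hy, if_pos hw, mul_one]
    · rw [if_neg (fun hh => hw hh.2), if_neg hw, mul_zero]
  · rw [if_neg (fun hh => hy hh.1), if_neg hy, zero_mul]

theorem main : Pool.Agent.W528.HC.PR → Pool.Agent.W528.HC.MU → Pool.Agent.W528.HG.PS := by
  classical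
  intro hPR hMU c _ L _ _ _ p r z hp hr _ hz E _ _ μ ν hμ hν m h f a g ha
  have hN : 0 < p * r := Nat.mul_pos hp.pos hr
  have hN2 : 2 ≤ p * r := by
    calc 2 ≤ p := hp.two_le
      _ = p * 1 := (mul_one p).symm
      _ ≤ p * r := Nat.mul_le_mul_left p hr
  have hmu := hMU L (p * r) z hN2 hz E μ hμ.pow_eq_one
  obtain ⟨F, hF⟩ : ∃ F : L → L → L, F = fun x t => ∏ i, (x - (f i).eval t) ^ a i := ⟨_, rfl⟩
  have h1 : ∀ j ∈ Ico 1 p, ∀ s : ℕ, ∀ x t : L, kv (p * r) z μ
      (((∏ i, (x - (f i).eval t) ^ (r * (j * a i % p))) * t ^ (p * s))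
        ^ ((Fintype.card L - 1) / (p * r))) =
      kv (p * r) z μ ((F x t ^ (r * j)) ^ ((Fintype.card L - 1) / (p * r))) *
        kv (p * r) z μ ((t ^ (p * s)) ^ ((Fintype.card L - 1) / (p * r))) := by
    intro j hj s x t
    rw [mem_Ico] at hj
    rw [hmu]
    congr 2
    rw [hF]
    simp only
    rw [← prod_pow, ← prod_pow, ← prod_pow]
    refine prod_congr rfl fun i _ => ?_
    have hnd : ¬ p ∣ j * a i := by
      intro hd
      rcases (Nat.Prime.dvd_mul hp).1 hd with h | h
      · have := Nat.le_of_dvd (by omega) h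
        omega
      · have := Nat.le_of_dvd (ha i).1 h
        have := (ha i).2
        omega
    rw [pow_mod hp.pos hr hz hnd, ← pow_mul (x - (f i).eval t) (a i)]
    congr 2
    ring
  have h2 : ∀ v : L, ∑ j ∈ Ico 1 p,
      kv (p * r) z μ ((v ^ (r * j)) ^ ((Fintype.card L - 1) / (p * r))) =
      ((Set.ncard {y : L | y ^ p = v} : ℕ) : E) - 1 := by
    intro v
    have := hPR L (p * r) p r z rfl hz hp.pos hr E μ hμ v
    rw [this]; ring
  have h3 : ∀ v : L, ∑ s ∈ range r,
      kv (p * r) z μ ((v ^ (p * s)) ^ ((Fintype.card L - 1) / (p * r))) =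
      ((Set.ncard {y : L | y ^ r = v} : ℕ) : E) := by
    intro v
    have := hPR L (p * r) r p z (mul_comm p r) hz hr hp.pos E μ hμ v
    rw [this, range_eq_Ico, sum_eq_sum_Ico_succ_bot hr]
    congr 1
    rw [mul_zero, pow_zero, one_pow, kv_one hN hz]
  obtain ⟨A, hA⟩ : ∃ A : L → L → ℕ → E, A = fun x t j =>
      kv (p * r) z μ ((F x t ^ (r * j)) ^ ((Fintype.card L - 1) / (p * r))) := ⟨_, rfl⟩
  obtain ⟨B, hB⟩ : ∃ B : L → ℕ → E, B = fun t s =>
      kv (p * r) z μ ((t ^ (p * s)) ^ ((Fintype.card L - 1) / (p * r))) := ⟨_, rfl⟩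
  obtain ⟨W, hW⟩ : ∃ W : L → E, W = fun t =>
      ∏ l, ((univ.filter (fun w : L => w ^ c - w = (g l).eval t)).card : E) := ⟨_, rfl⟩
  have h2' : ∀ x t : L, (∑ j ∈ Ico 1 p, A x t j) =
      ((Set.ncard {y : L | y ^ p = F x t} : ℕ) : E) - 1 := by
    intro x t
    rw [hA]
    exact h2 (F x t)
  have h3' : ∀ t : L, (∑ s ∈ range r, B t s * W t) =
      ((Set.ncard {y : L | y ^ r = t} : ℕ) : E) * W t := by
    intro t
    rw [← sum_mul, hB]
    congr 1
    exact h3 t
  have hlam : ∀ t : L, ∑ lam : Fin h → Fin c,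
      av L E c ν (∑ l, ((lam l : ℕ) : L) * (g l).eval t) = W t := by
    intro t
    rw [hW]
    exact as_sum L E c ν hν h (fun l => (g l).eval t)
  have e1 : (∑ j ∈ Ico 1 p, ∑ s ∈ range r, ∑ lam : Fin h → Fin c,
      asSum L E p r c f a g z μ ν j s lam) =
      ∑ j ∈ Ico 1 p, ∑ s ∈ range r, ∑ x : L, ∑ t : L, A x t j * (B t s * W t) := by
    refine sum_congr rfl fun j hj => sum_congr rfl fun s _ => ?_
    unfold asSum
    rw [sum_comm]
    refine sum_congr rfl fun x _ => ?_
    rw [sum_comm]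
    refine sum_congr rfl fun t _ => ?_
    rw [← mul_sum, hlam t, h1 j hj s x t, hA, hB, mul_assoc]
  have e3 : (∑ x : L, ∑ t : L, (∑ j ∈ Ico 1 p, A x t j) * (∑ s ∈ range r, B t s * W t)) =
      ∑ x : L, ∑ t : L, (((Set.ncard {y : L | y ^ p = F x t} : ℕ) : E) - 1) *
        (((Set.ncard {u : L | u ^ r = t} : ℕ) : E) * W t) :=
    sum_congr rfl fun x _ => sum_congr rfl fun t _ => by rw [h2', h3']
  have e4 : (∑ x : L, ∑ t : L, (((Set.ncard {y : L | y ^ p = F x t} : ℕ) : E) - 1) *
        (((Set.ncard {u : L | u ^ r = t} : ℕ) : E) * W t)) =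
      ∑ x : L, ∑ u : L, (((Set.ncard {y : L | y ^ p = F x (u ^ r)} : ℕ) : E) - 1) *
        W (u ^ r) := by
    refine sum_congr rfl fun x _ => ?_
    have e5 : ∀ t : L, (((Set.ncard {y : L | y ^ p = F x t} : ℕ) : E) - 1) *
        (((Set.ncard {u : L | u ^ r = t} : ℕ) : E) * W t) =
        ∑ u : L, (((Set.ncard {y : L | y ^ p = F x t} : ℕ) : E) - 1) * W t *
          (if u ^ r = t then 1 else 0) := by
      intro t
      rw [ncard_eq (fun u : L => u ^ r = t), ← mul_sum]
      ring
    rw [sum_congr rfl fun t _ => e5 t, sum_comm]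
    refine sum_congr rfl fun u _ => ?_
    rw [sum_eq_single_of_mem (u ^ r) (mem_univ _)]
    · rw [if_pos rfl, mul_one]
    · intro t _ ht
      rw [if_neg (fun h => ht h.symm), mul_zero]
  refine e1.trans ((swap4 (Ico 1 p) (range r) A (fun t s => B t s * W t)).trans
    (e3.trans (e4.trans ?_)))
  rw [points_eq, base_eq]
  simp only [hF, hW, sub_mul, sum_sub_distrib, one_mul, sum_const, card_univ, nsmul_eq_mul]

end Pool.Agent.W410.HG.PS
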